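import Pool.Agent.Helper47.FLG.Alg

namespace Pool.Agent.Helper48.FLG

open Finset Pool.Agent.Helper47.RFn Pool.Agent.Helper47.FLG

theorem q_abab {n : ℕ} (R : T4 n) (hR : IsCurv R) (a b : Fin n) :
    Q R a b a b = (∑ p, ∑ q, (R a p b q ^ 2 - 2 * R a p b q * R a q b p))
      + ∑ p, ∑ q, R a p a q * R b p b q := by
  unfold Q BB
  rw [← Finset.sum_add_distrib, ← Finset.sum_sub_distrib, ← Finset.sum_add_distrib,
    ← Finset.sum_sub_distrib]
  refine Finset.sum_congr rfl fun p _ => ?_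
  rw [← Finset.sum_add_distrib, ← Finset.sum_sub_distrib, ← Finset.sum_add_distrib,
    ← Finset.sum_sub_distrib]
  refine Finset.sum_congr rfl fun q _ => ?_
  have h : R b p a q = R a q b p := hR.pair b p a q
  rw [h]
  ring

theorem split_sum {n : ℕ} (i0 : Fin n) (f : Fin n → ℝ) :
    ∑ p, f p = f i0 + ∑ p ∈ univ.erase i0, f p :=
  (Finset.add_sum_erase univ f (Finset.mem_univ i0)).symm

theorem diag_zero {n : ℕ} (R : T4 n) (hR : IsCurv R) (a c d : Fin n) : R a a c d = 0 := by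
  have := hR.a12 a a c d
  linarith

theorem key {n : ℕ} (R : T4 n) (hR : IsCurv R) (i0 i : Fin n) (r : Fin n → ℝ) (hi : i0 ≠ i)
    (dg : ∀ p q, p ≠ q → R i0 p i0 q = 0) (rr : ∀ p, R i0 p i0 p = r p) :
    Q R i0 i i0 i = (∑ q ∈ univ.erase i0, r q * R i q i q) + r i ^ 2 + bk R i0 i := by
  rw [q_abab R hR]
  have h1 : ∑ p, ∑ q, R i0 p i0 q * R i p i q = ∑ q ∈ univ.erase i0, r q * R i q i q := by
    rw [split_sum i0]
    have h0 : ∑ q, R i0 i0 i0 q * R i i0 i q = 0 := by
      refine Finset.sum_eq_zero fun q _ => ?_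
      rw [diag_zero R hR]
      ring
    rw [h0, zero_add]
    refine Finset.sum_congr rfl fun p _ => ?_
    rw [Finset.sum_eq_single p]
    · rw [rr p]
    · intro q _ hq
      rw [dg p q (Ne.symm hq)]
      ring
    · intro h
      exact absurd (Finset.mem_univ p) h
  have h2 : ∑ p, ∑ q, (R i0 p i q ^ 2 - 2 * R i0 p i q * R i0 q i p) = r i ^ 2 + bk R i0 i := by
    rw [split_sum i0]
    have h0 : ∑ q, (R i0 i0 i q ^ 2 - 2 * R i0 i0 i q * R i0 q i i0) = 0 := by
      refine Finset.sum_eq_zero fun q _ => ?_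
      rw [diag_zero R hR]
      ring
    rw [h0, zero_add]
    unfold bk
    have h3 : ∀ p ∈ univ.erase i0, ∑ q, (R i0 p i q ^ 2 - 2 * R i0 p i q * R i0 q i p)
        = (if p = i then r i ^ 2 else 0)
          + ∑ q ∈ univ.erase i0, (R i0 p i q ^ 2 - 2 * R i0 p i q * R i0 q i p) := by
      intro p hp
      rw [split_sum i0]
      congr 1
      rw [diag_zero R hR i0 i p]
      have h4 : R i0 p i i0 = - R i0 p i0 i := hR.a34 i0 p i i0
      rw [h4]
      by_cases hpi : p = i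
      · subst hpi
        rw [rr p, if_pos rfl]
        ring
      · rw [dg p i hpi, if_neg hpi]
        ring
    rw [Finset.sum_congr rfl h3, Finset.sum_add_distrib]
    congr 1
    rw [Finset.sum_ite_eq' (univ.erase i0) i (fun _ => r i ^ 2)]
    rw [if_pos]
    exact Finset.mem_erase.2 ⟨Ne.symm hi, Finset.mem_univ i⟩
  rw [h1, h2]
  ring

theorem g_DID : G_DID := by
  intro n R i0 i1 i2 r H
  have hR : IsCurv R := H.fg.1
  unfold Dl
  rw [key R hR i0 i2 r H.d02 H.dg H.rr, key R hR i0 i1 r H.d01 H.dg H.rr, H.r1, H.r2]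
  have h : ∑ q ∈ univ.erase i0, r q * Wt R i1 i2 q
      = 4 * (∑ q ∈ univ.erase i0, r q * R i2 q i2 q) - (∑ q ∈ univ.erase i0, r q * R i1 q i1 q)
        + 4 * ((∑ q ∈ univ.erase i0, (if q = i2 then r q else 0))
          - ∑ q ∈ univ.erase i0, (if q = i1 then r q else 0)) := by
    rw [Finset.mul_sum, ← Finset.sum_sub_distrib, ← Finset.sum_sub_distrib, Finset.mul_sum,
      ← Finset.sum_add_distrib]
    refine Finset.sum_congr rfl fun q _ => ?_
    unfold Wt
    split_ifs <;> ring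
  rw [h, Finset.sum_ite_eq' (univ.erase i0) i2 r, Finset.sum_ite_eq' (univ.erase i0) i1 r,
    if_pos (Finset.mem_erase.2 ⟨Ne.symm H.d02, Finset.mem_univ i2⟩),
    if_pos (Finset.mem_erase.2 ⟨Ne.symm H.d01, Finset.mem_univ i1⟩), H.r1, H.r2]
  ring

end Pool.Agent.Helper48.FLG
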